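import Pool.Agent.Helper54.PT.DefsG
import Pool.Agent.Helper1.TW.C22
import Pool.Agent.Helper36.TW.C10C11

/-!
# Module G45: torsion in the local conditions, coefficients of the quadratic form
-/

set_option autoImplicit false

namespace Pool.Agent.Helper54.PT

open Polynomial Finset Filter Topology Module Pool.Agent.Helper43.TW Pool.Agent.Helper47.BSD

namespace G45

section

variable {F : Type} [Field F] {ℓ : ℕ} [Fact ℓ.Prime] {σ : Type} {R : σ → Prm F} {lg : F → ZMod ℓ}

theorem hom1 (hlg : IsLog ℓ lg) (t : Option σ) :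
    c22_Hom (fun x : RatFunc F => (clsT R lg x t).1) := by
  intro x y hx hy
  cases t with
  | some r =>
    simp only [clsT, clsPG]
    rw [ordK_mul _ hx hy]
    push_cast
    rfl
  | none =>
    simp only [clsT, clsIG]
    rw [lcK_mul hx hy, hlg.1 _ _ (lcK_ne_zero hx) (lcK_ne_zero hy)]

theorem hom2 (hlg : IsLog ℓ lg) (t : Option σ) :
    c22_Hom (fun x : RatFunc F => (clsT R lg x t).2) := by
  intro x y hx hy
  cases t with
  | some r =>
    simp only [clsT, clsPG]
    rw [rsK_mul hlg _ hx hy]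
  | none =>
    simp only [clsT, clsIG]
    rw [RatFunc.intDegree_mul hx hy]
    push_cast
    rfl

theorem neg_one_C : (-1 : RatFunc F) = algebraMap F[X] (RatFunc F) (C (-1)) := by
  rw [C_neg, C_1, map_neg, map_one]

theorem clsT_neg_one (hlg : IsLog ℓ lg) (hm : lg (-1) = 0) (t : Option σ) :
    clsT R lg (-1 : RatFunc F) t = 0 := by
  have h1 : (-1 : F) ≠ 0 := neg_ne_zero.2 one_ne_zero
  rw [neg_one_C]
  cases t with
  | some r =>
    simp only [clsT, clsPG]
    rw [ordK_const _ h1, rsK_poly hlg _ (fun h => (R r).2.2.not_isUnit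
      (isUnit_of_dvd_unit h (isUnit_C.2 h1.isUnit))), sy_C hlg (R r).2.1 h1, hm]
    simp
  | none =>
    simp only [clsT, clsIG]
    rw [lcK_poly, leadingCoeff_C, hm, RatFunc.intDegree_polynomial, natDegree_C]
    simp

theorem clsT_neg (hlg : IsLog ℓ lg) (hm : lg (-1) = 0) (t : Option σ) {x : RatFunc F}
    (hx : x ≠ 0) : clsT R lg (-x) t = clsT R lg x t := by
  have h1 : (-1 : RatFunc F) ≠ 0 := neg_ne_zero.2 one_ne_zero
  have h2 := hom1 (R := R) hlg t (-1) x h1 hx
  have h3 := hom2 (R := R) hlg t (-1) x h1 hx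
  simp only at h2 h3
  rw [neg_one_mul, clsT_neg_one hlg hm t] at h2 h3
  exact Prod.ext (by rw [h2]; simp) (by rw [h3]; simp)

end

section

variable {ℓ : ℕ} {σ : Type} [Fintype σ] [DecidableEq σ] {dR : σ → ZMod ℓ}
  {sR : σ → σ → ZMod ℓ}

theorem zlG_sum {α : Type} (s : Finset α) (c : α → ZMod ℓ) (b : α → Option σ → ZMod ℓ)
    (t : Option σ) : zlG dR sR (fun u => ∑ m ∈ s, c m * b m u) 0 t =
      ∑ m ∈ s, c m * zlG dR sR (b m) 0 t := by
  cases t with
  | some r =>
    simp only [zlG, Pi.zero_apply, add_zero, mul_add, sum_add_distrib]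
    congr 1
    · simp_rw [sum_mul, mul_sum]
      rw [sum_comm]
      exact sum_congr rfl fun m _ => sum_congr rfl fun r' _ => by ring
    · rw [sum_mul]
      exact sum_congr rfl fun m _ => by ring
  | none =>
    simp only [zlG, Pi.zero_apply, add_zero]
    simp_rw [mul_sum]
    rw [sum_comm]
    exact sum_congr rfl fun m _ => sum_congr rfl fun r' _ => by ring

end

section

variable {F : Type} [Field F] {ℓ : ℕ} [Fact ℓ.Prime] {ι : Type} [Fintype ι]
  [DecidableEq ι] {σ : Type} [Fintype σ] [DecidableEq σ] {a : ι → ℕ} {e : ι → F[X]}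
  {R : σ → Prm F} {lg : F → ZMod ℓ}

/-- The reciprocity formula G1, for elements which are units outside the bad primes. -/
def Rec (R : σ → Prm F) (lg : F → ZMod ℓ) : Prop :=
  ∀ x : RatFunc F, x ≠ 0 → (∀ Q : Prm F, (∀ r, Q ≠ R r) → (ordK Q x : ZMod ℓ) = 0) →
    ∀ t : Option σ, (clsT R lg x t).2 = zlG (fun r => ((R r).1.natDegree : ZMod ℓ))
      (fun r r' => sy lg (R r).1 (R r').1) (fun s => (clsT R lg x s).1) 0 t

theorem rec_of (h : ∀ (D : Finset (Prm F)), (∀ P ∈ D, ∀ r, P ≠ R r) → ∀ x : RatFunc F, x ≠ 0 →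
    (∀ Q : Prm F, Q ∉ D → (∀ r, Q ≠ R r) → (ordK Q x : ZMod ℓ) = 0) → ∀ t : Option σ,
    (clsT R lg x t).2 = zlG (fun r => ((R r).1.natDegree : ZMod ℓ))
      (fun r r' => sy lg (R r).1 (R r').1) (fun s => (clsT R lg x s).1)
      (fun s => match s with
        | some r => ∑ P ∈ D, (ordK P x : ZMod ℓ) * sy lg (R r).1 P.1
        | none => ∑ P ∈ D, (P.1.natDegree : ZMod ℓ) * (ordK P x : ZMod ℓ)) t) : Rec R lg := by
  intro x hx0 hx t
  rw [h ∅ (by simp) x hx0 (fun Q _ hQ => hx Q hQ) t]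
  congr 1
  funext s
  cases s <;> simp

omit [Fintype ι] [DecidableEq ι] [Fintype σ] [DecidableEq σ] [Fact ℓ.Prime] in
theorem sub_ne (hS : SetupG R e) {i j : ι} (hij : i ≠ j) : e i - e j ≠ 0 :=
  sub_ne_zero.2 (hS.ne i j hij)

omit [Fintype ι] [DecidableEq ι] [Fintype σ] [DecidableEq σ] [Fact ℓ.Prime] in
theorem amap_ne (hS : SetupG R e) {i j : ι} (hij : i ≠ j) :
    algebraMap F[X] (RatFunc F) (e i - e j) ≠ 0 :=
  RatFunc.algebraMap_ne_zero (sub_ne hS hij)

omit [Fintype ι] [DecidableEq ι] in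
theorem rec_diff (hrec : Rec R lg) (hS : SetupG R e) {i j : ι} (hij : i ≠ j) (t : Option σ) :
    (clsT R lg (algebraMap F[X] (RatFunc F) (e i - e j)) t).2 =
      zlG (fun r => ((R r).1.natDegree : ZMod ℓ)) (fun r r' => sy lg (R r).1 (R r').1)
        (AG R lg e i j) 0 t := by
  refine hrec _ (amap_ne hS hij) (fun Q hQ => ?_) t
  have h1 : ¬ Q.1 ∣ e i - e j := by
    intro h
    obtain ⟨r, hr⟩ := (hS.mem Q).2 ⟨i, j, hij, h⟩
    exact hQ r hr.symm
  rw [ordK_poly Q (sub_ne hS hij), multiplicity_eq_zero.2 h1]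
  simp

/-- G5 with G1 as a hypothesis -/
theorem gG_eq_of {lg : F → ZMod 2} (hrec : Rec R lg) (hS : SetupG R e) (t : Option σ) (i : ι) :
    gG (fun r => ((R r).1.natDegree : ZMod 2)) (fun r r' => sy lg (R r).1 (R r').1)
      (AG R lg e) t i = ∑ m ∈ univ.erase i,
        clsT R lg (algebraMap F[X] (RatFunc F) (e i) - algebraMap F[X] (RatFunc F) (e m)) t := by
  unfold gG
  apply Prod.ext
  · rw [Prod.fst_sum]
    refine sum_congr rfl fun m _ => ?_
    rw [AG, map_sub]
  · rw [Prod.snd_sum]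
    have h := zlG_sum (dR := fun r => ((R r).1.natDegree : ZMod 2))
      (sR := fun r r' => sy lg (R r).1 (R r').1) (univ.erase i) (fun _ => (1 : ZMod 2))
      (fun m => AG R lg e i m) t
    simp only [one_mul] at h
    rw [h]
    refine sum_congr rfl fun m hm => ?_
    rw [← rec_diff hrec hS (ne_of_mem_erase hm).symm t, map_sub]

/-- G4 with G1 as a hypothesis -/
theorem torG_of (hrec : Rec R lg) (hlg : IsLog ℓ lg) (hm : lg (-1) = 0) (ha : ∀ i, ¬ ℓ ∣ a i)
    (hs : ¬ ℓ ∣ ∑ i, a i) (hS : SetupG R e) (i₀ : ι) (t : Option σ) (c : ZMod ℓ) (D : RatFunc F)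
    (hD : D ≠ 0) (hDc : clsT R lg D t = (0, c)) (M : Submodule (ZMod ℓ) (LSG ℓ i₀))
    (h : ∀ i, mkG i₀ (fun j => clsT R lg (tt ℓ a
      (fun i => D * algebraMap F[X] (RatFunc F) (e i)) i j) t) ∈ M)
    (v : {j : ι // j ≠ i₀} → ZMod ℓ) :
    ((fun j => tauG a i₀ (AG R lg e) v j t,
      fun j => zlG (fun r => ((R r).1.natDegree : ZMod ℓ)) (fun r r' => sy lg (R r).1 (R r').1)
        (fun s => tauG a i₀ (AG R lg e) v j s) 0 t + c * v j) : LSG ℓ i₀) ∈ M := by
  have haz : ∀ i, (a i : ZMod ℓ) ≠ 0 := fun i h => ha i ((ZMod.natCast_eq_zero_iff _ _).1 h)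
  have hA : asum ℓ a ≠ 0 := by
    intro h
    apply hs
    rw [← ZMod.natCast_eq_zero_iff]
    push_cast
    exact h
  set ψ := algebraMap F[X] (RatFunc F) with hψ
  set E : ι → RatFunc F := fun i => D * ψ (e i) with hE
  have hEE : ∀ i j, E i - E j = D * ψ (e i - e j) := by
    intro i j
    simp only [hE]
    rw [map_sub]
    ring
  have hE0 : ∀ i j, i ≠ j → E i - E j ≠ 0 := by
    intro i j hij
    rw [hEE]
    exact mul_ne_zero hD (amap_ne hS hij)
  set x : ι → ZMod ℓ := ext a i₀ v with hx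
  set A : ZMod ℓ := asum ℓ a with hAdef
  set cc : ι → ℕ := fun i => (-(x i * a i * A⁻¹)).val with hcc
  have hccz : ∀ i, (cc i : ZMod ℓ) = -(x i * a i * A⁻¹) := fun i => by
    simp only [hcc]
    rw [ZMod.natCast_zmod_val]
  have hsym : ∀ i m, i ≠ m → clsT R lg (ψ (e i - e m)) t = clsT R lg (ψ (e m - e i)) t := by
    intro i m him
    rw [← clsT_neg hlg hm t (amap_ne hS him), ← map_neg, neg_sub]
  have h1D : (clsT R lg D t).1 = 0 := by rw [hDc]
  have h2D : (clsT R lg D t).2 = c := by rw [hDc]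
  -- first components
  have f1 : ∀ j, (clsT R lg (∏ i, tt ℓ a E i j ^ cc i) t).1 =
      ∑ m, (a m : ZMod ℓ) * A⁻¹ * (x j - x m) * (clsT R lg (ψ (e j - e m)) t).1 := by
    intro j
    refine c22_phi (hom1 (R := R) hlg t) a E hE0 (fun i m => (clsT R lg (ψ (e i - e m)) t).1)
      (fun i m him => ?_) (fun i m him => ?_) haz x A cc hccz j
    · rw [hEE]
      have := hom1 (R := R) hlg t D (ψ (e i - e m)) hD (amap_ne hS him)
      simp only at this
      rw [this, h1D, zero_add]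
    · rw [hsym i m him]
  have f2 : ∀ j, (clsT R lg (∏ i, tt ℓ a E i j ^ cc i) t).2 =
      ∑ m, (a m : ZMod ℓ) * A⁻¹ * (x j - x m) * (c + (clsT R lg (ψ (e j - e m)) t).2) := by
    intro j
    refine c22_phi (hom2 (R := R) hlg t) a E hE0 (fun i m => c + (clsT R lg (ψ (e i - e m)) t).2)
      (fun i m him => ?_) (fun i m him => ?_) haz x A cc hccz j
    · rw [hEE]
      have := hom2 (R := R) hlg t D (ψ (e i - e m)) hD (amap_ne hS him)
      simp only at this
      rw [this, h2D]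
    · rw [hsym i m him]
  -- the combination
  have key : ((fun j => tauG a i₀ (AG R lg e) v j t,
      fun j => zlG (fun r => ((R r).1.natDegree : ZMod ℓ)) (fun r r' => sy lg (R r).1 (R r').1)
        (fun s => tauG a i₀ (AG R lg e) v j s) 0 t + c * v j) : LSG ℓ i₀) =
      ∑ i, (cc i : ZMod ℓ) • mkG i₀ (fun j => clsT R lg (tt ℓ a E i j) t) := by
    apply Prod.ext
    · funext j
      rw [Prod.fst_sum, Finset.sum_apply]
      have e1 : ∀ i, ((cc i : ZMod ℓ) • mkG i₀ (fun j => clsT R lg (tt ℓ a E i j) t)).1 j =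
          (cc i : ZMod ℓ) * (clsT R lg (tt ℓ a E i j.1) t).1 := fun i => rfl
      rw [sum_congr rfl fun i _ => e1 i]
      have e2 : ∑ i, (cc i : ZMod ℓ) * (clsT R lg (tt ℓ a E i j.1) t).1 =
          (clsT R lg (∏ i, tt ℓ a E i j.1 ^ cc i) t).1 := by
        have h3 := c22_prod (hom1 (R := R) hlg t) univ (fun i => tt ℓ a E i j.1 ^ cc i)
          fun i _ => pow_ne_zero _ (c22_tt_ne_zero a E hE0 i j.1)
        rw [h3]
        refine sum_congr rfl fun i _ => ?_
        exact (c22_pow (hom1 (R := R) hlg t) (c22_tt_ne_zero a E hE0 i j.1) _).symm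
      rw [e2, f1]
      change ∑ m, (a m : ZMod ℓ) * (asum ℓ a)⁻¹ * (ext a i₀ v j.1 - ext a i₀ v m) *
        AG R lg e m j.1 t = _
      refine sum_congr rfl fun m _ => ?_
      by_cases hmj : m = j.1
      · rw [hmj]
        simp
      · rw [AG, hsym m j.1 hmj]
    · funext j
      change zlG (fun r => ((R r).1.natDegree : ZMod ℓ)) (fun r r' => sy lg (R r).1 (R r').1)
        (fun s => tauG a i₀ (AG R lg e) v j s) 0 t + c * v j = _
      rw [Prod.snd_sum, Finset.sum_apply]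
      have e1 : ∀ i, ((cc i : ZMod ℓ) • mkG i₀ (fun j => clsT R lg (tt ℓ a E i j) t)).2 j =
          (cc i : ZMod ℓ) * (clsT R lg (tt ℓ a E i j.1) t).2 := fun i => rfl
      rw [sum_congr rfl fun i _ => e1 i]
      have e2 : ∑ i, (cc i : ZMod ℓ) * (clsT R lg (tt ℓ a E i j.1) t).2 =
          (clsT R lg (∏ i, tt ℓ a E i j.1 ^ cc i) t).2 := by
        have h3 := c22_prod (hom2 (R := R) hlg t) univ (fun i => tt ℓ a E i j.1 ^ cc i)
          fun i _ => pow_ne_zero _ (c22_tt_ne_zero a E hE0 i j.1)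
        rw [h3]
        refine sum_congr rfl fun i _ => ?_
        exact (c22_pow (hom2 (R := R) hlg t) (c22_tt_ne_zero a E hE0 i j.1) _).symm
      rw [e2, f2]
      have e3 : ∀ m, (a m : ZMod ℓ) * A⁻¹ * (x j.1 - x m) *
          (c + (clsT R lg (ψ (e j.1 - e m)) t).2) =
          (A⁻¹ * c * x j.1 * (a m : ZMod ℓ) - A⁻¹ * c * ((a m : ZMod ℓ) * x m)) +
          (a m : ZMod ℓ) * A⁻¹ * (x j.1 - x m) * (clsT R lg (ψ (e j.1 - e m)) t).2 := by
        intro m
        ring
      rw [sum_congr rfl fun m _ => e3 m, sum_add_distrib, sum_sub_distrib, ← mul_sum, ← mul_sum]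
      have e4 : ∑ m, (a m : ZMod ℓ) * x m = 0 := C11_ext_sum a i₀ (ha i₀) v
      have e5 : ∑ m, (a m : ZMod ℓ) = A := rfl
      have e6 : x j.1 = v j := by
        rw [hx, ext, dif_neg j.2]
      rw [e4, e5, mul_zero, sub_zero]
      have e7 : A⁻¹ * c * x j.1 * A = c * v j := by
        have : A⁻¹ * A = 1 := inv_mul_cancel₀ hA
        calc A⁻¹ * c * x j.1 * A = (A⁻¹ * A) * (c * x j.1) := by ring
          _ = c * v j := by rw [this, one_mul, e6]
      rw [e7, add_comm]
      have e8 := zlG_sum (dR := fun r => ((R r).1.natDegree : ZMod ℓ))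
        (sR := fun r r' => sy lg (R r).1 (R r').1) univ
        (fun m => (a m : ZMod ℓ) * A⁻¹ * (x j.1 - x m)) (fun m => AG R lg e m j.1) t
      have e9 : (fun s => tauG a i₀ (AG R lg e) v j s) = fun u =>
          ∑ m, (a m : ZMod ℓ) * A⁻¹ * (x j.1 - x m) * AG R lg e m j.1 u := rfl
      rw [e9, e8]
      refine congrArg (fun z => c * v j + z) (sum_congr rfl fun m _ => ?_)
      by_cases hmj : m = j.1
      · rw [hmj, sub_self, mul_zero, zero_mul, zero_mul]
      · rw [← rec_diff hrec hS hmj t, hsym m j.1 hmj]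
  rw [key]
  exact Submodule.sum_mem _ fun i _ => Submodule.smul_mem _ _ (h i)

end

end G45

end Pool.Agent.Helper54.PT
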