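import Pool.Agent.Helper12.TG.G45
import Pool.Agent.Helper42.TG.G01

/-!
# Module G45: the exact statements of G4 and G5
-/

set_option autoImplicit false

namespace Pool.Agent.Helper54.PT

open Polynomial Finset Filter Topology Module Pool.Agent.Helper43.TW Pool.Agent.Helper47.BSD

variable {F : Type} [Field F] [Finite F] {ℓ : ℕ} [Fact ℓ.Prime] {ι : Type} [Fintype ι]
  [DecidableEq ι] {σ : Type} [Fintype σ] [DecidableEq σ] {a : ι → ℕ} {e : ι → F[X]}
  {R : σ → Prm F} {lg : F → ZMod ℓ}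

/-- G4: the torsion is contained in the local conditions -/
theorem torG (hlg : IsLog ℓ lg) (hm : lg (-1) = 0) (ha : ∀ i, ¬ ℓ ∣ a i)
    (hs : ¬ ℓ ∣ ∑ i, a i) (hS : SetupG R e) (i₀ : ι) (t : Option σ) (c : ZMod ℓ) (D : RatFunc F)
    (hD : D ≠ 0) (hDc : clsT R lg D t = (0, c)) (M : Submodule (ZMod ℓ) (LSG ℓ i₀))
    (h : ∀ i, mkG i₀ (fun j => clsT R lg (tt ℓ a
      (fun i => D * algebraMap F[X] (RatFunc F) (e i)) i j) t) ∈ M)
    (v : {j : ι // j ≠ i₀} → ZMod ℓ) :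
    ((fun j => tauG a i₀ (AG R lg e) v j t,
      fun j => zlG (fun r => ((R r).1.natDegree : ZMod ℓ)) (fun r r' => sy lg (R r).1 (R r').1)
        (fun s => tauG a i₀ (AG R lg e) v j s) 0 t + c * v j) : LSG ℓ i₀) ∈ M :=
  G45.torG_of (G45.rec_of fun D hD x hx0 hx t => clsT_eq hlg hS.inj D hD hx0 hx t) hlg hm ha hs hS
    i₀ t c D hD hDc M h v

/-- G5: the coefficients of the quadratic form (uses G1) -/
theorem gG_eq {lg : F → ZMod 2} (hlg : IsLog 2 lg) (hS : SetupG R e) (t : Option σ) (i : ι) :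
    gG (fun r => ((R r).1.natDegree : ZMod 2)) (fun r r' => sy lg (R r).1 (R r').1)
      (AG R lg e) t i = ∑ m ∈ univ.erase i,
        clsT R lg (algebraMap F[X] (RatFunc F) (e i) - algebraMap F[X] (RatFunc F) (e m)) t :=
  G45.gG_eq_of (G45.rec_of fun D hD x hx0 hx t => clsT_eq hlg hS.inj D hD hx0 hx t) hS t i

end Pool.Agent.Helper54.PT
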