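import Pool.Agent.Helper92.TW.C8
import Pool.Agent.Helper99.TW.C9
import Pool.Agent.Helper57.TW.C1

/-!
# Module K1: powers in the completion at `P`
-/

set_option autoImplicit false

namespace Pool.Agent.Helper54.PT

open Polynomial Finset Filter Topology Module Pool.Agent.Helper47.BSD

namespace K1

/-- in a finite field with `ℓ ∣ q - 1`, `z` is an `ℓ`-th power if `z ^ ((q - 1) / ℓ) = 1` -/
theorem pow_of_pow_eq_one {E : Type} [Field E] [Finite E] {ℓ : ℕ} (hℓ : 0 < ℓ)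
    (hd : ℓ ∣ Nat.card E - 1) {z : E} (hz : z ≠ 0) (h : z ^ ((Nat.card E - 1) / ℓ) = 1) :
    ∃ w : E, w ^ ℓ = z := by
  classical
  obtain ⟨g, hg⟩ := IsCyclic.exists_generator (α := Eˣ)
  obtain ⟨k, hk⟩ := (mem_powers_iff_mem_zpowers.2 (hg (Units.mk0 z hz)) :
    Units.mk0 z hz ∈ Submonoid.powers g)
  have hcard : orderOf g = Nat.card E - 1 := by
    rw [orderOf_eq_card_of_forall_mem_zpowers hg, Nat.card_units]
  have hpos : 0 < Nat.card E - 1 := by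
    rw [← hcard]; exact orderOf_pos g
  obtain ⟨n, hn⟩ := hd
  have hn0 : 0 < n := by
    rcases Nat.eq_zero_or_pos n with h0 | h0
    · rw [h0, mul_zero] at hn; omega
    · exact h0
  have h1 : g ^ (k * n) = 1 := by
    have h2 : (Units.mk0 z hz) ^ n = 1 := by
      ext
      rw [Units.val_pow_eq_pow_val, Units.val_mk0, Units.val_one]
      rw [hn, Nat.mul_div_cancel_left _ hℓ] at h
      exact h
    rw [pow_mul]
    have hk' : g ^ k = Units.mk0 z hz := hk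
    rw [hk', h2]
  have h2 := orderOf_dvd_of_pow_eq_one h1
  rw [hcard, hn] at h2
  have h3 : ℓ ∣ k := Nat.dvd_of_mul_dvd_mul_right hn0 h2
  obtain ⟨j, hj⟩ := h3
  refine ⟨((g ^ j : Eˣ) : E), ?_⟩
  have hk' : g ^ k = Units.mk0 z hz := hk
  rw [← Units.val_pow_eq_pow_val, ← pow_mul, mul_comm, ← hj, hk', Units.val_mk0]

/-- an element of a finite extension whose norm is an `ℓ`-th power is an `ℓ`-th power -/
theorem pow_of_norm {F E : Type} [Field F] [Finite F] [Field E] [Finite E] [Algebra F E] {ℓ : ℕ}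
    (hℓ : 0 < ℓ) (hd : ℓ ∣ Nat.card F - 1) {z : E} (hz : z ≠ 0) {y : F}
    (hy : y ^ ℓ = Algebra.norm F z) : ∃ w : E, w ^ ℓ = z := by
  have hF1 : 1 < Nat.card F := Finite.one_lt_card
  have hE1 : 1 < Nat.card E := Finite.one_lt_card
  have hnz : Algebra.norm F z ≠ 0 := Algebra.norm_ne_zero_iff.2 hz
  have hy0 : y ≠ 0 := by
    rintro rfl
    rw [zero_pow hℓ.ne'] at hy
    exact hnz hy.symm
  have hmod := FiniteField.algebraMap_norm_eq_pow (K := F) (K' := E) (x := z)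
  obtain ⟨n, hn⟩ := hd
  have hdvd : Nat.card F - 1 ∣ Nat.card E - 1 := by
    have h1 : Nat.card E = Nat.card F ^ Module.finrank F E := Module.natCard_eq_pow_finrank
    rw [h1]
    simpa using Nat.sub_dvd_pow_sub_pow (Nat.card F) 1 (Module.finrank F E)
  obtain ⟨m, hm⟩ := hdvd
  have hF0 : 0 < Nat.card F - 1 := by omega
  rw [hm, Nat.mul_div_cancel_left _ hF0] at hmod
  have hEn : Nat.card E - 1 = ℓ * (n * m) := by rw [hm, hn, mul_assoc]
  refine pow_of_pow_eq_one hℓ ⟨n * m, hEn⟩ hz ?_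
  rw [hEn, Nat.mul_div_cancel_left _ hℓ, mul_comm n m, pow_mul, ← hmod, ← hy, ← map_pow,
    ← pow_mul, ← hn]
  have h1 : y ^ (Nat.card F - 1) = 1 := by
    have := Fintype.ofFinite F
    rw [Nat.card_eq_fintype_card]
    exact FiniteField.pow_card_sub_one_eq_one y hy0
  rw [h1, map_one]

/-- decomposition of a polynomial -/
theorem decomp {F : Type} [Field F] (P : Prm F) {f : F[X]} (hf : f ≠ 0) :
    ∃ g : F[X], f = P.1 ^ multiplicity P.1 f * g ∧ ¬ P.1 ∣ g := by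
  have hfin : FiniteMultiplicity P.1 f :=
    FiniteMultiplicity.of_not_isUnit P.2.2.not_isUnit hf
  exact hfin.exists_eq_pow_mul_and_not_dvd

/-- a polynomial whose symbol vanishes is an `ℓ`-th power modulo `P` -/
theorem residue {F : Type} [Field F] [Finite F] {ℓ : ℕ} [Fact ℓ.Prime] {lg : F → ZMod ℓ}
    (hq : ℓ ∣ Nat.card F - 1) (hlg : IsLog ℓ lg) (P : Prm F) {f : F[X]} (hf : ¬ P.1 ∣ f)
    (h : sy lg P.1 f = 0) : ∃ h : F[X], P.1 ∣ f - h ^ ℓ := by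
  have hℓ : 0 < ℓ := (Fact.out : ℓ.Prime).pos
  have : Fact (Irreducible P.1) := ⟨P.2.2⟩
  have : FiniteDimensional F (AdjoinRoot P.1) := (AdjoinRoot.powerBasis P.2.1.ne_zero).finite
  have : Finite (AdjoinRoot P.1) := Module.finite_of_finite F
  obtain ⟨y, hy⟩ := (hlg.2.1 _ (nm_ne_zero P.2.1 P.2.2 hf)).1 h
  have hz : AdjoinRoot.mk P.1 f ≠ 0 := fun h2 => hf (AdjoinRoot.mk_eq_zero.1 h2)
  obtain ⟨w, hw⟩ := pow_of_norm hℓ hq hz hy
  obtain ⟨g, rfl⟩ := AdjoinRoot.mk_surjective w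
  refine ⟨g, ?_⟩
  rw [← map_pow] at hw
  exact AdjoinRoot.mk_eq_mk.1 hw.symm

end K1

variable {F : Type} [Field F] [Finite F] {ℓ : ℕ} [Fact ℓ.Prime] {lg : F → ZMod ℓ}

open K1 in
/-- K1: powers in the completion at `P` -/
theorem pow_of_class_absP (hq : ℓ ∣ Nat.card F - 1) (hlg : IsLog ℓ lg) (P : Prm F)
    (v : AbsoluteValue (RatFunc F) ℝ) (hvn : v.IsNontrivial) (hv : IsAbsP P v) {x : RatFunc F}
    (hx : x ≠ 0) (h1 : (ℓ : ℤ) ∣ ordK P x) (h2 : rsK lg P x = 0) :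
    ∃ y : v.Completion, algebraMap (RatFunc F) v.Completion x = y ^ ℓ := by
  have _ := hvn
  have hℓ : 0 < ℓ := (Fact.out : ℓ.Prime).pos
  obtain ⟨p, hp⟩ := CharP.exists F
  have := hp
  have : CharP (RatFunc F) p := charP_of_injective_algebraMap (algebraMap F (RatFunc F)).injective p
  have hpp : p.Prime := CharP.char_is_prime F p
  have := ultra_completion v p hpp
  have hk := lf_absP hq P v hv
  set φ := algebraMap (RatFunc F) v.Completion with hφ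
  set ψ := algebraMap F[X] (RatFunc F) with hψ
  have hφ0 : ∀ x : RatFunc F, x ≠ 0 → φ x ≠ 0 := fun x hx h =>
    hx ((map_eq_zero_iff _ φ.injective).1 h)
  have hψ0 : ∀ x : F[X], x ≠ 0 → ψ x ≠ 0 := fun x hx => RatFunc.algebraMap_ne_zero hx
  have hn0 : x.num ≠ 0 := RatFunc.num_ne_zero hx
  have hd0 : x.denom ≠ 0 := RatFunc.denom_ne_zero x
  obtain ⟨f, hf, hPf⟩ := decomp P hn0
  obtain ⟨g, hg, hPg⟩ := decomp P hd0
  set a := multiplicity P.1 x.num with ha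
  set b := multiplicity P.1 x.denom with hb
  have hP0 : P.1 ≠ 0 := P.2.1.ne_zero
  have hf0 : f ≠ 0 := by rintro rfl; exact hPf (dvd_zero _)
  have hg0 : g ≠ 0 := by rintro rfl; exact hPg (dvd_zero _)
  have hxe : x * ψ x.denom = ψ x.num := by
    have h1 := RatFunc.num_div_denom x
    nth_rw 1 [← h1]
    rw [div_mul_cancel₀ _ (hψ0 _ hd0)]
  have hr : ∀ (n : ℕ) (u : F[X]), ¬ P.1 ∣ u → rsK lg P (ψ (P.1 ^ n * u)) = sy lg P.1 u := by
    intro n u hu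
    have hu0 : u ≠ 0 := by rintro rfl; exact hu (dvd_zero _)
    rw [map_mul, map_pow, rsK_mul hlg P (pow_ne_zero _ (hψ0 _ hP0)) (hψ0 _ hu0),
      rsK_pow hlg P (hψ0 _ hP0), hψ, rsK_self hlg P, rsK_poly hlg P hu, mul_zero, zero_add]
  have hs : sy lg P.1 g = sy lg P.1 f := by
    have h3 := congrArg (rsK lg P) hxe
    rw [rsK_mul hlg P hx (hψ0 _ hd0), h2, zero_add, hf, hg, hr, hr] at h3
    · exact h3
    · exact hPf
    · exact hPg
  -- the polynomial which is a power modulo `P`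
  set u : F[X] := f * g ^ (ℓ - 1) with hu
  have hPgp : ¬ P.1 ∣ g ^ (ℓ - 1) := fun h => hPg (P.2.2.prime.dvd_of_dvd_pow h)
  have hPu : ¬ P.1 ∣ u := fun h => (P.2.2.prime.dvd_or_dvd h).elim hPf hPgp
  have hsu : sy lg P.1 u = 0 := by
    rw [hu, sy_mul hlg P.2.1 P.2.2 hPf hPgp, sy_pow hlg P.2.1 P.2.2 hPg, ← hs]
    have h3 : sy lg P.1 g + ((ℓ - 1 : ℕ) : ZMod ℓ) * sy lg P.1 g = (ℓ : ZMod ℓ) * sy lg P.1 g := by
      rw [Nat.cast_sub hℓ]
      push_cast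
      ring
    rw [h3, CharP.cast_eq_zero, zero_mul]
  obtain ⟨h, hh⟩ := residue hq hlg P hPu hsu
  have hPh : ¬ P.1 ∣ h := by
    intro h3
    exact hPu ((dvd_iff_dvd_of_dvd_sub hh).2 (dvd_pow h3 hℓ.ne'))
  have hh0 : h ≠ 0 := by rintro rfl; exact hPh (dvd_zero _)
  have hnorm : ∀ x : RatFunc F, ‖φ x‖ = v x := norm_algebraMap v
  have hvh : ‖φ (ψ h)‖ = 1 := by
    rw [hnorm, hv _ (hψ0 _ hh0), hψ, ordK_poly P hh0, multiplicity_eq_zero.2 hPh]
    simp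
  have hvd : ‖φ (ψ (u - h ^ ℓ))‖ < 1 := by
    rcases eq_or_ne (u - h ^ ℓ) 0 with h0 | h0
    · rw [h0, map_zero, map_zero, norm_zero]; exact one_pos
    · rw [hnorm, hv _ (hψ0 _ h0), hψ, ordK_poly P h0]
      have h3 : multiplicity P.1 (u - h ^ ℓ) ≠ 0 := fun h4 => (multiplicity_eq_zero.1 h4) hh
      exact zpow_lt_one_of_neg₀ one_lt_two (by omega)
  have hH0 : φ (ψ h) ≠ 0 := hφ0 _ (hψ0 _ hh0)
  obtain ⟨w, hw, -⟩ := exists_pow_near_one hℓ hk.norm_ell (φ (ψ u) / φ (ψ h) ^ ℓ) (by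
    have h3 : φ (ψ u) / φ (ψ h) ^ ℓ - 1 = φ (ψ (u - h ^ ℓ)) / φ (ψ h) ^ ℓ := by
      rw [map_sub, map_sub, map_pow, map_pow, sub_div, div_self (pow_ne_zero _ hH0)]
    rw [h3, norm_div, norm_pow, hvh, one_pow, div_one]
    exact hvd)
  have hwu : (w * φ (ψ h)) ^ ℓ = φ (ψ u) := by
    rw [mul_pow, hw, div_mul_cancel₀ _ (pow_ne_zero _ hH0)]
  obtain ⟨m, hm⟩ := h1
  have hm' : (a : ℤ) - b = ℓ * m := hm
  have hPp : φ (ψ P.1) ≠ 0 := hφ0 _ (hψ0 _ hP0)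
  have hG : φ (ψ g) ≠ 0 := hφ0 _ (hψ0 _ hg0)
  refine ⟨φ (ψ P.1) ^ m * (w * φ (ψ h)) / φ (ψ g), ?_⟩
  have e1 : φ x * (φ (ψ P.1) ^ b * φ (ψ g)) = φ (ψ P.1) ^ a * φ (ψ f) := by
    have h3 := congrArg φ hxe
    rw [map_mul, hf, hg] at h3
    simpa only [map_mul, map_pow] using h3
  have e2 : (φ (ψ P.1) ^ m) ^ ℓ = φ (ψ P.1) ^ a / φ (ψ P.1) ^ b := by
    rw [← zpow_natCast (φ (ψ P.1) ^ m) ℓ, ← zpow_mul, mul_comm m, ← hm', zpow_sub₀ hPp,
      zpow_natCast, zpow_natCast]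
  have e3 : φ (ψ u) = φ (ψ f) * φ (ψ g) ^ (ℓ - 1) := by
    rw [hu, map_mul, map_mul, map_pow, map_pow]
  have e4 : φ (ψ g) ^ ℓ = φ (ψ g) ^ (ℓ - 1) * φ (ψ g) := by
    rw [← pow_succ, Nat.sub_add_cancel hℓ]
  rw [div_pow, mul_pow, hwu, e2, e3, e4]
  have hPb : φ (ψ P.1) ^ b ≠ 0 := pow_ne_zero _ hPp
  have hGl : φ (ψ g) ^ (ℓ - 1) ≠ 0 := pow_ne_zero _ hG
  field_simp
  linear_combination e1

end Pool.Agent.Helper54.PT
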